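import Pool.Agent.W966.Vg.Stms2

/-!
# VH-DIR: a direction in which the polynomial is monic up to a constant
-/

set_option autoImplicit false

namespace Pool.Agent.W976.VH

open MvPolynomial Pool.Agent.W966.Vg

section Top

variable {K : Type*} [CommRing K]

/-- `p` has degree at most `n`, with coefficient `c` at `n`. -/
def Top (p : Polynomial K) (n : ℕ) (c : K) : Prop := p.natDegree ≤ n ∧ p.coeff n = c

lemma Top.mul {p q : Polynomial K} {n m : ℕ} {c c' : K} (h : Top p n c) (h' : Top q m c') :
    Top (p * q) (n + m) (c * c') := by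
  refine ⟨Polynomial.natDegree_mul_le.trans (add_le_add h.1 h'.1), ?_⟩
  rw [Polynomial.coeff_mul_add_eq_of_natDegree_le h.1 h'.1, h.2, h'.2]

lemma Top.one : Top (1 : Polynomial K) 0 1 := by
  refine ⟨by simp, by simp⟩

lemma Top.pow {p : Polynomial K} {c : K} (h : Top p 1 c) (m : ℕ) : Top (p ^ m) m (c ^ m) := by
  induction m with
  | zero => simpa using (Top.one : Top (1 : Polynomial K) 0 1)
  | succ m ih =>
    rw [pow_succ, pow_succ]
    exact ih.mul h

lemma Top.prod {ι : Type*} (s : Finset ι) (p : ι → Polynomial K) (n : ι → ℕ) (c : ι → K)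
    (h : ∀ i ∈ s, Top (p i) (n i) (c i)) : Top (∏ i ∈ s, p i) (∑ i ∈ s, n i) (∏ i ∈ s, c i) := by
  classical
  induction s using Finset.induction_on with
  | empty => simpa using (Top.one : Top (1 : Polynomial K) 0 1)
  | insert i s hi ih =>
    rw [Finset.prod_insert hi, Finset.sum_insert hi, Finset.prod_insert hi]
    exact (h i (Finset.mem_insert_self i s)).mul
      (ih fun j hj => h j (Finset.mem_insert_of_mem hj))

end Top

section Line

variable {K ι : Type} [Field K]

lemma top_lin (x a : K) : Top (Polynomial.C x + Polynomial.C a * Polynomial.X) 1 a := by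
  refine ⟨?_, by simp⟩
  compute_degree

/-- The polynomial on the line through `x` in direction `a`. -/
noncomputable def line (x a : ι → K) (f : MvPolynomial ι K) : Polynomial K :=
  aeval (fun i => Polynomial.C (x i) + Polynomial.C (a i) * Polynomial.X : ι → Polynomial K) f

lemma top_mon (x a : ι → K) (m : ι →₀ ℕ) (z : K) :
    Top (line x a (monomial m z)) m.degree (eval a (monomial m z)) := by
  unfold line
  rw [aeval_monomial, eval_monomial, ← Polynomial.C_eq_algebraMap]
  have h0 : Top (Polynomial.C z : Polynomial K) 0 z := ⟨by simp, by simp⟩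
  have h1 := Top.prod m.support (fun i => (Polynomial.C (x i) +
    Polynomial.C (a i) * Polynomial.X : Polynomial K) ^ m i) (fun i => m i)
    (fun i => a i ^ m i) (fun i _ => (top_lin (x i) (a i)).pow (m i))
  have h2 := h0.mul h1
  rw [zero_add] at h2
  exact h2

lemma line_top (x a : ι → K) (f : MvPolynomial ι K) :
    Top (line x a f) f.totalDegree (eval a (homogeneousComponent f.totalDegree f)) := by
  have hdeg : ∀ m ∈ f.support, m.degree ≤ f.totalDegree := by
    intro m hm
    exact le_totalDegree hm
  have hsum : line x a f = ∑ m ∈ f.support, line x a (monomial m (coeff m f)) := by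
    conv_lhs => rw [f.as_sum]
    unfold line
    rw [map_sum]
  constructor
  · rw [hsum]
    exact Polynomial.natDegree_sum_le_of_forall_le _ _ fun m hm =>
      (top_mon x a m _).1.trans (hdeg m hm)
  · rw [hsum, Polynomial.finsetSum_coeff, homogeneousComponent_apply, map_sum,
      Finset.sum_filter]
    refine Finset.sum_congr rfl fun m hm => ?_
    have h1 := top_mon x a m (coeff m f)
    split_ifs with h
    · rw [← h]
      exact h1.2
    · exact Polynomial.coeff_eq_zero_of_natDegree_lt
        (lt_of_le_of_lt h1.1 (lt_of_le_of_ne (hdeg m hm) h))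

end Line

lemma enum {K : Type*} (n : ℕ) (s : Multiset K) (h : Multiset.card s = n) :
    ∃ Y : Fin n → K, Multiset.map Y (Finset.univ : Finset (Fin n)).val = s := by
  subst h
  induction s using Quot.inductionOn with
  | _ l =>
    refine ⟨fun v => l.get v, ?_⟩
    rw [Fin.univ_val_map]
    exact congrArg _ (List.ofFn_get l)

theorem dir_ : S_DIR := by
  intro K ι _ _ _ f hf
  have hinf : Infinite K := IsAlgClosed.instInfinite
  have hne : homogeneousComponent f.totalDegree f ≠ 0 := by
    obtain ⟨m, hm, hm2⟩ := Finset.exists_mem_eq_sup f.support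
      (Finset.nonempty_iff_ne_empty.2 fun h => hf (support_eq_empty.1 h))
      (fun s : ι →₀ ℕ => s.sum fun _ e => e)
    intro h0
    have h1 := congrArg (coeff m) h0
    rw [coeff_homogeneousComponent, coeff_zero] at h1
    have h2 : m.degree = f.totalDegree := hm2.symm
    rw [if_pos h2] at h1
    exact (mem_support_iff.1 hm) h1
  obtain ⟨a, ha⟩ : ∃ a : ι → K, eval a (homogeneousComponent f.totalDegree f) ≠ 0 := by
    by_contra hcon
    push Not at hcon
    exact hne (MvPolynomial.funext fun a => by rw [hcon a, map_zero])
  refine ⟨a, _, ha, fun x => ?_⟩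
  have ht := line_top x a f
  have hnd : (line x a f).natDegree = f.totalDegree :=
    le_antisymm ht.1 (Polynomial.le_natDegree_of_ne_zero (by rw [ht.2]; exact ha))
  have hlc : (line x a f).leadingCoeff = eval a (homogeneousComponent f.totalDegree f) := by
    rw [Polynomial.leadingCoeff, hnd, ht.2]
  have hsp := IsAlgClosed.splits (line x a f)
  obtain ⟨Y, hY⟩ := enum f.totalDegree (line x a f).roots (by
    rw [← hnd]
    exact hsp.natDegree_eq_card_roots.symm)
  refine ⟨Y, ?_⟩
  have h3 := hsp.eq_prod_roots
  rw [hlc, ← hY, Multiset.map_map] at h3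
  exact h3

end Pool.Agent.W976.VH
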