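import Pool.Agent.W966.Vg.Stms2

/-!
# VH-ID: the product over the conjugate roots
-/

set_option autoImplicit false

namespace Pool.Agent.W976.VH

open MvPolynomial Pool.Agent.W966.Vg

section Psi

variable {Ω Ω' ι : Type} [Field Ω] [Field Ω'] [Algebra Ω Ω']

/-- Substitution of `u` and of the variable. -/
noncomputable def psi (u : ι → Ω') : MvPolynomial (Option ι) Ω →ₐ[Ω] Polynomial Ω' :=
  aeval (fun j => Option.elim j Polynomial.X fun i => Polynomial.C (u i))

lemma psi_none (u : ι → Ω') : psi (Ω := Ω) u (X none) = Polynomial.X := by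
  unfold psi
  rw [aeval_X]
  rfl

lemma psi_some (u : ι → Ω') (i : ι) : psi (Ω := Ω) u (X (some i)) = Polynomial.C (u i) := by
  unfold psi
  rw [aeval_X]
  rfl

lemma psi_C (u : ι → Ω') (z : Ω) : psi (Ω := Ω) u (C z) = Polynomial.C (algebraMap Ω Ω' z) := by
  unfold psi
  rw [aeval_C]
  rfl

lemma psi_eq (u : ι → Ω') : psi (Ω := Ω) u =
    (Polynomial.mapAlgHom (aeval u : MvPolynomial ι Ω →ₐ[Ω] Ω')).comp
      (optionEquivLeft Ω ι).toAlgHom := by
  apply MvPolynomial.algHom_ext
  intro j
  cases j with
  | none =>
    rw [psi_none]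
    simp
  | some i =>
    rw [psi_some]
    simp

lemma psi_inj (u : ι → Ω') (hu : AlgebraicIndependent Ω u) :
    Function.Injective (psi (Ω := Ω) u) := by
  rw [psi_eq]
  have h1 : Function.Injective (Polynomial.mapAlgHom (aeval u : MvPolynomial ι Ω →ₐ[Ω] Ω')) :=
    Polynomial.map_injective _ hu
  exact h1.comp (optionEquivLeft Ω ι).injective

lemma psi_rename (u : ι → Ω') (Z : MvPolynomial ι Ω) :
    psi (Ω := Ω) u (rename some Z) = Polynomial.C (aeval u Z) := by
  have h : (psi (Ω := Ω) u).toRingHom.comp (rename some : MvPolynomial ι Ω →ₐ[Ω] _).toRingHom =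
      (Polynomial.C : Ω' →+* Polynomial Ω').comp (aeval u : MvPolynomial ι Ω →ₐ[Ω] Ω').toRingHom := by
    apply MvPolynomial.ringHom_ext
    · intro z
      show psi (Ω := Ω) u (rename some (C z)) = Polynomial.C (aeval u (C z))
      rw [rename_C, psi_C, aeval_C]
    · intro i
      show psi (Ω := Ω) u (rename some (X i)) = Polynomial.C (aeval u (X i))
      rw [rename_X, psi_some, aeval_X]
  exact DFunLike.congr_fun h Z

end Psi

lemma prod_coeff_congr {A V : Type} [CommRing A] (d : ℕ) (s : Finset V)
    (a b : V → PowerSeries A)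
    (h : ∀ v, ∀ k ≤ d, PowerSeries.coeff k (a v) = PowerSeries.coeff k (b v)) :
    ∀ k ≤ d, PowerSeries.coeff k (∏ v ∈ s, a v) = PowerSeries.coeff k (∏ v ∈ s, b v) := by
  classical
  induction s using Finset.induction_on with
  | empty => intro k _; simp
  | insert v s hv ih =>
    intro k hk
    rw [Finset.prod_insert hv, Finset.prod_insert hv, PowerSeries.coeff_mul, PowerSeries.coeff_mul]
    refine Finset.sum_congr rfl fun p hp => ?_
    rw [Finset.HasAntidiagonal.mem_antidiagonal] at hp
    rw [h v p.1 (by omega), ih p.2 (by omega)]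

lemma totalDegree_map_le' {A B σ : Type} [CommRing A] [CommRing B] (κ : A →+* B)
    (f : MvPolynomial σ A) : (MvPolynomial.map κ f).totalDegree ≤ f.totalDegree :=
  Finset.sup_mono (support_map_subset κ f)

/-- the left side -/
lemma psi_prodE {Ω Ω' ι V : Type} [Field Ω] [Field Ω'] [Algebra Ω Ω'] [Fintype V] (u : ι → Ω')
    (d : ℕ) (Y : V × Fin (d + 1) → MvPolynomial ι Ω) (c : V → Fin (d + 1) → Ω')
    (hY : ∀ v k, aeval u (Y (v, k)) = c v k) :
    psi u (prodE d Y) = ∑ k ∈ Finset.range (d + 1), Polynomial.coeff
      (∏ v, (Polynomial.C (Polynomial.X : Polynomial Ω') -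
        ∑ k : Fin (d + 1), Polynomial.C (Polynomial.C (c v k)) * Polynomial.X ^ (k : ℕ))) k := by
  unfold prodE
  rw [map_sum]
  refine Finset.sum_congr rfl fun k _ => ?_
  have h1 : ∀ Q : Polynomial (MvPolynomial (Option ι) Ω),
      psi (Ω := Ω) u (Q.coeff k) = (Q.map (psi (Ω := Ω) u).toRingHom).coeff k := by
    intro Q
    rw [Polynomial.coeff_map]
    rfl
  rw [h1, Polynomial.map_prod]
  congr 1
  refine Finset.prod_congr rfl fun v _ => ?_
  rw [Polynomial.map_sub, Polynomial.map_C, Polynomial.map_sum]
  congr 1
  · congr 1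
    exact psi_none u
  · refine Finset.sum_congr rfl fun j _ => ?_
    rw [Polynomial.map_mul, Polynomial.map_C, Polynomial.map_pow, Polynomial.map_X]
    congr 2
    have := psi_rename (Ω := Ω) u (Y (v, j))
    rw [hY] at this
    exact this

theorem id_ : S_ID := by
  intro K F Ω Ω' ι V _ _ _ _ _ _ _ _ _ _ _ _ x u τ y d f Y hu hK hτK hτx hY hdeg hf
  apply psi_inj u hu
  rw [psi_prodE u d Y (fun v k => PowerSeries.coeff (k : ℕ) (τ (y v))) hY]
  -- the polynomial in `t`
  set κ : K →+* Polynomial Ω' := (Polynomial.C).comp (algebraMap K Ω') with hκ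
  set xx : ι → Ω' := fun i => algebraMap Ω Ω' (algebraMap F Ω (x i)) with hxx
  set G : Option ι → Polynomial (Polynomial Ω') := fun j => Option.elim j
    (Polynomial.C Polynomial.X) fun i => Polynomial.C (Polynomial.C (xx i)) +
      Polynomial.C (Polynomial.C (u i)) * Polynomial.X with hG
  set R : Polynomial (Polynomial Ω') := aeval G (MvPolynomial.map κ f) with hR
  have hRdeg : R.natDegree ≤ d := by
    have h1 := MvPolynomial.aeval_natDegree_le (m := d) (n := 1) (MvPolynomial.map κ f)
      ((totalDegree_map_le' κ f).trans hdeg) G (by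
        intro j
        cases j with
        | none =>
          simp only [hG, Option.elim_none]
          rw [Polynomial.natDegree_C]
          exact Nat.zero_le _
        | some i =>
          simp only [hG, Option.elim_some]
          compute_degree)
    rwa [mul_one] at h1
  -- `R` as a power series
  set ρ : Polynomial F →+* PowerSeries (Polynomial Ω') :=
    Polynomial.eval₂RingHom ((PowerSeries.map (Polynomial.C : Ω' →+* Polynomial Ω')).comp τ)
      (PowerSeries.C (Polynomial.X : Polynomial Ω')) with hρ
  have ρC : ∀ z, ρ (Polynomial.C z) = PowerSeries.map (Polynomial.C : Ω' →+* Polynomial Ω') (τ z) := by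
    intro z
    rw [hρ, Polynomial.coe_eval₂RingHom, Polynomial.eval₂_C]
    rfl
  have ρX : ρ Polynomial.X = PowerSeries.C (Polynomial.X : Polynomial Ω') := by
    rw [hρ, Polynomial.coe_eval₂RingHom, Polynomial.eval₂_X]
  have hRρ : (R : PowerSeries (Polynomial Ω')) = ∏ v, (PowerSeries.C (Polynomial.X : Polynomial Ω') -
      PowerSeries.map (Polynomial.C : Ω' →+* Polynomial Ω') (τ (y v))) := by
    have h1 : (Polynomial.coeToPowerSeries.ringHom.comp
        ((aeval G : MvPolynomial (Option ι) (Polynomial Ω') →ₐ[Polynomial Ω'] _).toRingHom.comp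
          (MvPolynomial.map κ)) : MvPolynomial (Option ι) K →+* PowerSeries (Polynomial Ω')) =
        ρ.comp (aeval (fun j => Option.elim j Polynomial.X fun i => Polynomial.C (x i) :
          Option ι → Polynomial F) : MvPolynomial (Option ι) K →ₐ[K] Polynomial F).toRingHom := by
      apply MvPolynomial.ringHom_ext
      · intro z
        show ((aeval G (MvPolynomial.map κ (C z)) : Polynomial (Polynomial Ω')) :
          PowerSeries (Polynomial Ω')) = ρ (aeval _ (C z))
        rw [map_C, aeval_C, aeval_C]
        have e1 : algebraMap K (Polynomial F) z = Polynomial.C (algebraMap K F z) := rfl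
        rw [e1, ρC, hτK, PowerSeries.map_C]
        have e2 : algebraMap (Polynomial Ω') (Polynomial (Polynomial Ω')) (κ z) =
          Polynomial.C (κ z) := rfl
        rw [e2, Polynomial.coe_C]
        rfl
      · intro j
        show ((aeval G (MvPolynomial.map κ (X j)) : Polynomial (Polynomial Ω')) :
          PowerSeries (Polynomial Ω')) = ρ (aeval _ (X j))
        rw [map_X, aeval_X, aeval_X]
        cases j with
        | none =>
          simp only [hG, Option.elim_none]
          rw [ρX, Polynomial.coe_C]
        | some i =>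
          simp only [hG, Option.elim_some]
          rw [ρC, hτx, map_add, map_mul, PowerSeries.map_C, PowerSeries.map_C, PowerSeries.map_X,
            Polynomial.coe_add, Polynomial.coe_mul, Polynomial.coe_C, Polynomial.coe_C,
            Polynomial.coe_X]
    have h2 := DFunLike.congr_fun h1 f
    have h3 : (R : PowerSeries (Polynomial Ω')) = ρ (aeval (fun j => Option.elim j Polynomial.X
      fun i => Polynomial.C (x i) : Option ι → Polynomial F) f) := h2
    rw [h3, hf, map_prod]
    refine Finset.prod_congr rfl fun v _ => ?_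
    rw [map_sub, ρX, ρC]
  -- comparison of the coefficients
  have hco : ∀ k ≤ d, R.coeff k = Polynomial.coeff
      (∏ v, (Polynomial.C (Polynomial.X : Polynomial Ω') -
        ∑ k : Fin (d + 1), Polynomial.C (Polynomial.C (PowerSeries.coeff (k : ℕ) (τ (y v)))) *
          Polynomial.X ^ (k : ℕ))) k := by
    intro k hk
    rw [← Polynomial.coeff_coe R, hRρ, ← Polynomial.coeff_coe]
    have e1 : ((∏ v, (Polynomial.C (Polynomial.X : Polynomial Ω') -
        ∑ k : Fin (d + 1), Polynomial.C (Polynomial.C (PowerSeries.coeff (k : ℕ) (τ (y v)))) *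
          Polynomial.X ^ (k : ℕ)) : Polynomial (Polynomial Ω')) : PowerSeries (Polynomial Ω')) =
        ∏ v, ((Polynomial.C (Polynomial.X : Polynomial Ω') -
        ∑ k : Fin (d + 1), Polynomial.C (Polynomial.C (PowerSeries.coeff (k : ℕ) (τ (y v)))) *
          Polynomial.X ^ (k : ℕ) : Polynomial (Polynomial Ω')) : PowerSeries (Polynomial Ω')) :=
      map_prod Polynomial.coeToPowerSeries.ringHom _ _
    rw [e1]
    refine prod_coeff_congr d Finset.univ _ _ ?_ k hk
    intro v j hj
    rw [Polynomial.coeff_coe, Polynomial.coeff_sub, Polynomial.finsetSum_coeff, map_sub,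
      PowerSeries.coeff_C, PowerSeries.coeff_map, Polynomial.coeff_C]
    congr 1
    rw [Finset.sum_eq_single (⟨j, by omega⟩ : Fin (d + 1))]
    · rw [Polynomial.coeff_C_mul, Polynomial.coeff_X_pow, if_pos rfl, mul_one]
    · intro b _ hb
      rw [Polynomial.coeff_C_mul, Polynomial.coeff_X_pow, if_neg, mul_zero]
      intro h
      exact hb (Fin.ext h.symm)
    · intro h
      exact absurd (Finset.mem_univ _) h
  rw [← Finset.sum_congr rfl fun k hk => hco k (by have := Finset.mem_range.1 hk; omega)]
  -- the value at `t = 1`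
  have hev : ∑ k ∈ Finset.range (d + 1), R.coeff k = R.eval 1 := by
    rw [Polynomial.eval_eq_sum_range' (Nat.lt_succ_of_le hRdeg)]
    simp
  rw [hev]
  have h1 : ((Polynomial.evalRingHom (1 : Polynomial Ω')).comp
        ((aeval G : MvPolynomial (Option ι) (Polynomial Ω') →ₐ[Polynomial Ω'] _).toRingHom.comp
          (MvPolynomial.map κ)) : MvPolynomial (Option ι) K →+* Polynomial Ω') =
      (psi (Ω := Ω) u).toRingHom.comp (aeval (fun j => Option.elim j (X none) fun i =>
      X (some i) + C (algebraMap F Ω (x i)) : Option ι → MvPolynomial (Option ι) Ω) :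
        MvPolynomial (Option ι) K →ₐ[K] MvPolynomial (Option ι) Ω).toRingHom := by
    apply MvPolynomial.ringHom_ext
    · intro z
      show (aeval G (MvPolynomial.map κ (C z))).eval 1 = psi (Ω := Ω) u (aeval _ (C z))
      rw [map_C, aeval_C, aeval_C]
      have e1 : algebraMap K (MvPolynomial (Option ι) Ω) z = C (algebraMap K Ω z) := rfl
      have e2 : algebraMap (Polynomial Ω') (Polynomial (Polynomial Ω')) (κ z) =
          Polynomial.C (κ z) := rfl
      rw [e1, e2, psi_C, Polynomial.eval_C, ← hK]
      rfl
    · intro j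
      show (aeval G (MvPolynomial.map κ (X j))).eval 1 = psi (Ω := Ω) u (aeval _ (X j))
      rw [map_X, aeval_X, aeval_X]
      cases j with
      | none =>
        simp only [hG, Option.elim_none]
        rw [psi_none, Polynomial.eval_C]
      | some i =>
        simp only [hG, Option.elim_some]
        rw [map_add, psi_some, psi_C, Polynomial.eval_add, Polynomial.eval_mul, Polynomial.eval_C,
          Polynomial.eval_C, Polynomial.eval_X, mul_one, add_comm]
  exact DFunLike.congr_fun h1 f

end Pool.Agent.W976.VH
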