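import Pool.Agent.W966.Vg.Stms2
import Pool.Agent.W613.VG.Rec

/-!
# VH-PROD: the cost of the product of truncated power series
-/

set_option autoImplicit false

namespace Pool.Agent.W976.VH

open MvPolynomial Pool.Agent.W966.Vf Pool.Agent.W966.Vg Pool.Agent.W613.VG

section Prod

variable {P ι V : Type} [CommRing P] [Fintype ι]

lemma val_mem (f : LF P ι) (l : ℕ) (g : ℕ → MvPolynomial ι P) :
    rename some (f.val X l g) ∈ Sp l (fun r => (rename some (g r) : MvPolynomial (Option ι) P)) := by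
  unfold LF.val
  rw [map_add, map_add, map_sum, map_sum]
  refine Submodule.add_mem _ (Submodule.add_mem _ ?_ ?_) ?_
  · have : (rename some (algebraMap P (MvPolynomial ι P) f.c) : MvPolynomial (Option ι) P) =
        C f.c := by
      rw [MvPolynomial.algebraMap_eq, rename_C]
    rw [this]
    exact C_mem_Sp _ _ _
  · refine Submodule.sum_mem _ fun i _ => ?_
    rw [map_mul, rename_X, MvPolynomial.algebraMap_eq, rename_C]
    exact C_mul_mem_Sp _ _ _ _ (X_mem_Sp _ _ _)
  · refine Submodule.sum_mem _ fun s hs => ?_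
    rw [map_mul, MvPolynomial.algebraMap_eq, rename_C]
    exact C_mul_mem_Sp _ _ _ _ (g_mem_Sp _ _ _ (Finset.mem_range.1 hs))

/-- The factor belonging to `v`. -/
noncomputable def fac (d : ℕ) (Y : V × Fin (d + 1) → MvPolynomial ι P) (v : V) :
    Polynomial (MvPolynomial (Option ι) P) :=
  Polynomial.C (X none) -
    ∑ k : Fin (d + 1), Polynomial.C (rename some (Y (v, k))) * Polynomial.X ^ (k : ℕ)

lemma fac_coeff (d : ℕ) (Y : V × Fin (d + 1) → MvPolynomial ι P) (v : V) (M : ℕ)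
    (g : ℕ → MvPolynomial (Option ι) P) (h : ∀ k, rename some (Y (v, k)) ∈ Sp M g) (i : ℕ) :
    (fac d Y v).coeff i ∈ Sp M g := by
  unfold fac
  rw [Polynomial.coeff_sub, Polynomial.finsetSum_coeff]
  refine Submodule.sub_mem _ ?_ (Submodule.sum_mem _ fun k _ => ?_)
  · rw [Polynomial.coeff_C]
    split_ifs
    · exact X_mem_Sp _ _ _
    · exact Submodule.zero_mem _
  · rw [Polynomial.coeff_C_mul, Polynomial.coeff_X_pow]
    split_ifs
    · rw [mul_one]
      exact h k
    · rw [mul_zero]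
      exact Submodule.zero_mem _

lemma card_pairs (d : ℕ) :
    Fintype.card (Σ k : Fin (d + 1), Fin ((k : ℕ) + 1)) = (d + 1) * (d + 2) / 2 := by
  rw [Fintype.card_sigma]
  simp only [Fintype.card_fin]
  rw [Fin.sum_univ_eq_sum_range (fun k => k + 1) (d + 1)]
  have h := Finset.sum_range_succ' (fun k => k) (d + 1)
  simp only [add_zero] at h
  rw [← h, Finset.sum_range_id]
  congr 1
  have : d + 1 + 1 - 1 = d + 1 := by omega
  rw [this]
  ring

lemma step (d N M : ℕ) (g : ℕ → MvPolynomial (Option ι) P) (hg : Vld N g) (hMN : M ≤ N)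
    (q Q : Polynomial (MvPolynomial (Option ι) P)) (hq : ∀ i, q.coeff i ∈ Sp N g)
    (hQ : ∀ i ≤ d, Q.coeff i ∈ Sp N g) :
    ∃ g' : ℕ → MvPolynomial (Option ι) P, Vld (N + (d + 1) * (d + 2) / 2) g' ∧
      (∀ s < N, g' s = g s) ∧ ∀ k ≤ d, (q * Q).coeff k ∈ Sp (N + (d + 1) * (d + 2) / 2) g' := by
  classical
  have e : (Σ k : Fin (d + 1), Fin ((k : ℕ) + 1)) ≃ Fin ((d + 1) * (d + 2) / 2) :=
    Fintype.equivFinOfCardEq (card_pairs d)
  obtain ⟨g', h1, h2, h3⟩ := vld_ext N ((d + 1) * (d + 2) / 2) g hg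
    (fun t => q.coeff (e.symm t).2) (fun t => Q.coeff ((e.symm t).1 - (e.symm t).2))
    (fun t => hq _) (fun t => hQ _ (by have := (e.symm t).1.2; omega))
  refine ⟨g', h1, h2, ?_⟩
  intro k hk
  rw [Polynomial.coeff_mul, Finset.Nat.sum_antidiagonal_eq_sum_range_succ_mk]
  refine Submodule.sum_mem _ fun i hi => ?_
  have hi' : i < k + 1 := Finset.mem_range.1 hi
  let F : (Σ k : Fin (d + 1), Fin ((k : ℕ) + 1)) → MvPolynomial (Option ι) P := fun p =>
    q.coeff p.2 * Q.coeff (p.1 - p.2)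
  have h4 : F (e.symm (e ⟨⟨k, by omega⟩, ⟨i, hi'⟩⟩)) ∈ Sp (N + (d + 1) * (d + 2) / 2) g' :=
    h3 (e ⟨⟨k, by omega⟩, ⟨i, hi'⟩⟩)
  rw [Equiv.symm_apply_apply] at h4
  exact h4

lemma all_steps (d M : ℕ) (g0 : ℕ → MvPolynomial (Option ι) P) (hg : Vld M g0)
    (Y : V × Fin (d + 1) → MvPolynomial ι P) (hY : ∀ v, rename some (Y v) ∈ Sp M g0)
    (s : Finset V) :
    ∃ g : ℕ → MvPolynomial (Option ι) P, Vld (M + s.card * ((d + 1) * (d + 2) / 2)) g ∧
      (∀ r < M, g r = g0 r) ∧
      ∀ k ≤ d, (∏ v ∈ s, fac d Y v).coeff k ∈ Sp (M + s.card * ((d + 1) * (d + 2) / 2)) g := by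
  classical
  induction s using Finset.induction_on with
  | empty =>
    refine ⟨g0, by simpa using hg, fun _ _ => rfl, ?_⟩
    intro k _
    rw [Finset.prod_empty, Polynomial.coeff_one]
    split_ifs
    · exact one_mem_Sp _ _
    · exact Submodule.zero_mem _
  | insert v s hv ih =>
    obtain ⟨g, h1, h2, h3⟩ := ih
    have hle : Sp M g0 ≤ Sp (M + s.card * ((d + 1) * (d + 2) / 2)) g :=
      Sp_mono (by omega) h2
    obtain ⟨g', a1, a2, a3⟩ := step d _ M g h1 (by omega) (fac d Y v) (∏ v ∈ s, fac d Y v)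
      (fac_coeff d Y v _ g fun k => hle (hY _)) h3
    rw [Finset.card_insert_of_notMem hv, Finset.prod_insert hv, add_mul, one_mul, ← add_assoc]
    refine ⟨g', a1, fun r hr => ?_, a3⟩
    rw [a2 r (by omega), h2 r hr]

end Prod

theorem prod_ : S_PROD := by
  intro P ι V _ _ _ M d Y hY
  obtain ⟨a, b, o, g, hg, ho⟩ := hY
  have hv : Vld M (fun r => (rename some (g r) : MvPolynomial (Option ι) P)) := by
    intro r hr
    refine ⟨_, val_mem (a r) r g, _, val_mem (b r) r g, ?_⟩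
    rw [← map_mul, ← hg r hr]
  have hYm : ∀ v, rename some (Y v) ∈ Sp M (fun r => (rename some (g r) : MvPolynomial (Option ι) P)) := by
    intro v
    rw [ho v]
    exact val_mem (o v) M g
  obtain ⟨g', h1, -, h3⟩ := all_steps d M _ hv Y hYm Finset.univ
  rw [Finset.card_univ] at h1 h3
  refine nscomp_of_vld _ g' h1 _ fun _ => ?_
  unfold prodE
  refine Submodule.sum_mem _ fun k hk => ?_
  exact h3 k (by have := Finset.mem_range.1 hk; omega)

end Pool.Agent.W976.VH
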